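import Pool.Agent.R489.HB.Stm

set_option autoImplicit false

namespace Pool.Agent.R37.HB

open Finset Pool.Agent.R489.HB

variable {W : Type} [DecidableEq W]

theorem mem_edg {Φ : Finset (Finset W)} {e : Finset W} :
    e ∈ edg Φ ↔ ∃ f ∈ Φ, e ⊆ f ∧ e.card = 2 := by
  simp only [edg, mem_biUnion, mem_powersetCard]

theorem mem_vts {Φ : Finset (Finset W)} {v : W} : v ∈ vts Φ ↔ ∃ f ∈ Φ, v ∈ f := by
  simp only [vts, mem_biUnion, id]

/-- the two-element subsets of a triangle that contain `v` -/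
theorem pairs {f : Finset W} {v : W} (hf : f.card = 3) (hv : v ∈ f) :
    ((f.powersetCard 2).filter (fun e => v ∈ e)).card = 2 := by
  have h : (f.powersetCard 2).filter (fun e => v ∈ e) = (f.erase v).image (fun x => {v, x}) := by
    ext e
    simp only [mem_filter, mem_powersetCard, mem_image, mem_erase]
    constructor
    · rintro ⟨⟨h1, h2⟩, h3⟩
      obtain ⟨p, q, hpq, rfl⟩ := card_eq_two.1 h2
      simp only [mem_insert, mem_singleton] at h3
      rcases h3 with rfl | rfl
      · exact ⟨q, ⟨fun h => hpq h.symm, h1 (by simp)⟩, rfl⟩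
      · exact ⟨p, ⟨hpq, h1 (by simp)⟩, pair_comm _ _⟩
    · rintro ⟨x, ⟨hx, hxf⟩, rfl⟩
      refine ⟨⟨?_, card_pair (fun h => hx h.symm)⟩, by simp⟩
      intro y hy
      simp only [mem_insert, mem_singleton] at hy
      rcases hy with rfl | rfl
      · exact hv
      · exact hxf
  rw [h, card_image_of_injOn, card_erase_of_mem hv, hf]
  intro x hx y hy hxy
  simp only [coe_erase, Set.mem_sdiff, mem_coe, Set.mem_singleton_iff] at hx hy
  have h1 : x ∈ ({v, x} : Finset W) := by simp
  have h2 : ({v, x} : Finset W) = {v, y} := hxy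
  rw [h2] at h1
  simp only [mem_insert, mem_singleton] at h1
  exact h1.resolve_left hx.2

theorem fcard {Φ : Finset (Finset W)} (h : IsTri Φ) (v : W) : (fc Φ {v}).card = dg Φ v := by
  have key := sum_card_bipartiteAbove_eq_sum_card_bipartiteBelow (s := (edg Φ).filter (fun e => v ∈ e))
    (t := fc Φ {v}) (fun e f => e ⊆ f)
  have h1 : ∀ e ∈ (edg Φ).filter (fun e => v ∈ e),
      ((fc Φ {v}).bipartiteAbove (fun e f => e ⊆ f) e).card = 2 := by
    intro e he
    rw [mem_filter] at he
    rw [← h.two e he.1]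
    congr 1
    ext f
    simp only [bipartiteAbove, fc, mem_filter, singleton_subset_iff]
    constructor
    · rintro ⟨⟨h1, _⟩, h2⟩
      exact ⟨h1, h2⟩
    · rintro ⟨h1, h2⟩
      exact ⟨⟨h1, h2 he.2⟩, h2⟩
  have h2 : ∀ f ∈ fc Φ {v},
      (((edg Φ).filter (fun e => v ∈ e)).bipartiteBelow (fun e f => e ⊆ f) f).card = 2 := by
    intro f hf
    simp only [fc, mem_filter, singleton_subset_iff] at hf
    rw [← pairs (h.three f hf.1) hf.2]
    congr 1
    ext e
    simp only [bipartiteBelow, mem_filter, mem_powersetCard, mem_edg]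
    constructor
    · rintro ⟨⟨⟨g, _, _, h1⟩, h2⟩, h3⟩
      exact ⟨⟨h3, h1⟩, h2⟩
    · rintro ⟨⟨h1, h2⟩, h3⟩
      exact ⟨⟨⟨f, hf.1, h1, h2⟩, h3⟩, h1⟩
  rw [sum_congr rfl h1, sum_congr rfl h2, sum_const, sum_const] at key
  simp only [smul_eq_mul] at key
  unfold dg
  omega

/-- a vertex lies in two triangles with a common edge -/
theorem two_faces {Φ : Finset (Finset W)} (h : IsTri Φ) {v : W} (hv : v ∈ vts Φ) :
    ∃ b c c' : W, v ≠ b ∧ v ≠ c ∧ v ≠ c' ∧ b ≠ c ∧ b ≠ c' ∧ c ≠ c' ∧ ({v, b, c} : Finset W) ∈ Φ ∧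
      ({v, b, c'} : Finset W) ∈ Φ := by
  obtain ⟨f, hf, hvf⟩ := mem_vts.1 hv
  have h3 := h.three f hf
  have h3' : (f.erase v).card = 2 := by rw [card_erase_of_mem hvf, h3]
  obtain ⟨b, c, hbc, he⟩ := card_eq_two.1 h3'
  have hb : b ∈ f.erase v := by rw [he]; simp
  have hc : c ∈ f.erase v := by rw [he]; simp
  have hfe : f = {v, b, c} := by rw [← insert_erase hvf, he]
  rw [mem_erase] at hb hc
  have hed : ({v, b} : Finset W) ∈ edg Φ := mem_edg.2 ⟨f, hf, by
    rw [hfe]; intro y hy; simp only [mem_insert, mem_singleton] at hy ⊢; tauto,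
    card_pair (fun h => hb.1 h.symm)⟩
  have h2 := h.two _ hed
  have hfm : f ∈ fc Φ {v, b} := by
    simp only [fc, mem_filter]
    refine ⟨hf, ?_⟩
    rw [hfe]; intro y hy; simp only [mem_insert, mem_singleton] at hy ⊢; tauto
  obtain ⟨g, hg, hgf⟩ := exists_mem_ne (by rw [h2]; norm_num) f
  simp only [fc, mem_filter] at hg
  have g3 := h.three g hg.1
  have hvg : v ∈ g := hg.2 (by simp)
  have hbg : b ∈ g.erase v := mem_erase.2 ⟨hb.1, hg.2 (by simp)⟩
  have g3' : ((g.erase v).erase b).card = 1 := by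
    rw [card_erase_of_mem hbg, card_erase_of_mem hvg, g3]
  obtain ⟨c', hc'⟩ := card_eq_one.1 g3'
  have hge : g = {v, b, c'} := by rw [← insert_erase hvg, ← insert_erase hbg, hc']
  have hcm : c' ∈ (g.erase v).erase b := by rw [hc']; simp
  rw [mem_erase, mem_erase] at hcm
  refine ⟨b, c, c', fun h => hb.1 h.symm, fun h => hc.1 h.symm, fun h => hcm.2.1 h.symm, hbc,
    fun h => hcm.1 h.symm, ?_, hfe ▸ hf, hge ▸ hg.1⟩
  rintro rfl
  exact hgf (by rw [hge, hfe])

theorem DG3 : S_DG3 := by
  intro W _ Φ h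
  refine ⟨?_, fun v hv => ⟨?_, fcard h v⟩, ?_⟩
  · obtain ⟨f, hf⟩ := h.ne
    have h3 := h.three f hf
    obtain ⟨v, hv⟩ := card_pos.1 (show 0 < f.card by omega)
    obtain ⟨b, c, c', h1, h2, h3, h4, h5, h6, hA, hB⟩ := two_faces h (mem_vts.2 ⟨f, hf, hv⟩)
    have hs : ({v, b, c, c'} : Finset W) ⊆ vts Φ := by
      intro y hy
      simp only [mem_insert, mem_singleton] at hy
      rcases hy with rfl | rfl | rfl | rfl
      · exact mem_vts.2 ⟨_, hA, by simp⟩
      · exact mem_vts.2 ⟨_, hA, by simp⟩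
      · exact mem_vts.2 ⟨_, hA, by simp⟩
      · exact mem_vts.2 ⟨_, hB, by simp⟩
    have hc : ({v, b, c, c'} : Finset W).card = 4 := by
      rw [card_insert_of_notMem (by simp [h1, h2, h3]), card_insert_of_notMem (by simp [h4, h5]),
        card_pair h6]
    rw [← hc]
    exact card_le_card hs
  · obtain ⟨b, c, c', h1, h2, h3, h4, h5, h6, hA, hB⟩ := two_faces h hv
    have hs : ({b, c, c'} : Finset W).image (fun x => ({v, x} : Finset W)) ⊆
        (edg Φ).filter (fun e => v ∈ e) := by
      intro e he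
      simp only [mem_image, mem_insert, mem_singleton] at he
      obtain ⟨x, hx, rfl⟩ := he
      refine mem_filter.2 ⟨?_, by simp⟩
      rcases hx with rfl | rfl | rfl
      · exact mem_edg.2 ⟨_, hA, by intro y; simp only [mem_insert, mem_singleton]; tauto,
          card_pair h1⟩
      · exact mem_edg.2 ⟨_, hA, by intro y; simp only [mem_insert, mem_singleton]; tauto,
          card_pair h2⟩
      · exact mem_edg.2 ⟨_, hB, by intro y; simp only [mem_insert, mem_singleton]; tauto,
          card_pair h3⟩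
    have hc : (({b, c, c'} : Finset W).image (fun x => ({v, x} : Finset W))).card = 3 := by
      rw [card_image_of_injOn, card_insert_of_notMem (by simp [h4, h5]), card_pair h6]
      intro x hx y hy hxy
      have hxv : x ≠ v := by
        simp only [coe_insert, coe_singleton, Set.mem_insert_iff, Set.mem_singleton_iff] at hx
        rcases hx with rfl | rfl | rfl
        · exact fun h => h1 h.symm
        · exact fun h => h2 h.symm
        · exact fun h => h3 h.symm
      have m1 : x ∈ ({v, x} : Finset W) := by simp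
      have m2 : ({v, x} : Finset W) = {v, y} := hxy
      rw [m2] at m1
      simp only [mem_insert, mem_singleton] at m1
      exact m1.resolve_left hxv
    rw [← hc]
    exact card_le_card hs
  · have key := sum_card_bipartiteAbove_eq_sum_card_bipartiteBelow (s := vts Φ) (t := edg Φ)
      (fun v e => v ∈ e)
    have h1 : ∀ v ∈ vts Φ, ((edg Φ).bipartiteAbove (fun v e => v ∈ e) v).card = dg Φ v :=
      fun v _ => rfl
    have h2 : ∀ e ∈ edg Φ, ((vts Φ).bipartiteBelow (fun v e => v ∈ e) e).card = 2 := by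
      intro e he
      obtain ⟨f, hf, hef, hc⟩ := mem_edg.1 he
      rw [← hc]
      congr 1
      ext x
      simp only [bipartiteBelow, mem_filter]
      exact ⟨fun h => h.2, fun h => ⟨mem_vts.2 ⟨f, hf, hef h⟩, h⟩⟩
    have e1 := (sum_congr rfl h1).symm.trans (key.trans (sum_congr rfl h2))
    rw [e1, sum_const, smul_eq_mul, mul_comm]

end Pool.Agent.R37.HB
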